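import Pool.Agent.H22R3.NoForm

set_option autoImplicit false

/-!
The generating function `W` by edges of the even graphs on `p` vertices fixed by a permutation has no
form as a sum of boundedly many terms, each a rational multiple of a product of powers (with integer
exponents) of `x` and of factors `1 + x ^ k`, `1 - x ^ k`, as long as the number of different indices
`k` in the form is bounded in terms of the order of the permutation: already for the identity, for
every `T` and `L` no form with `T` terms and `L` indices `k` (of arbitrary size) exists once `p` is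
large.

Idea: for the identity, `W` is a positive combination of the polynomials
`(1 + x) ^ (N - k (p - k)) (1 - x) ^ (k (p - k))`, whose orders at `x = 1` are `0, p - 1, 2 (p - 2),
...`, while the order at `1` of a combination of `n` products with `L` indices differs from the order
of one of the products by at most a constant depending on `n` and `L` only (elimination with the
derivation `x d/dx`, which ends in a polynomial with a bounded number of monomials).
-/

namespace Pool.Agent.Results.MP_98cfca_co.NoBoundedForm

open Polynomial Finset

open Classical in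
/-- `W α` is the sum of `X ^ |E(G)|` over the graphs `G` on the vertex set `Fin p` all of whose degrees
are even and which satisfy `α(G) = G`. -/
noncomputable def W {p : ℕ} (α : Equiv.Perm (Fin p)) : ℚ[X] :=
  ∑ G ∈ (Finset.univ : Finset (SimpleGraph (Fin p))).filter
    (fun G => (∀ v, Even (G.degree v)) ∧ ∀ u v, G.Adj (α u) (α v) ↔ G.Adj u v),
    X ^ G.edgeFinset.card

/-- The polynomial `F` is, in the field of rational functions, a sum of `T` terms, each of which is a
rational number times an integer power of `x` times a product over `k ∈ K` of integer powers of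
`1 + x ^ k` and `1 - x ^ k`, for some set `K` of at most `L` positive integers. -/
def HasForm (F : ℚ[X]) (T L : ℕ) : Prop :=
  ∃ (K : Finset ℕ) (c : Fin T → ℚ) (e : Fin T → ℤ) (a b : Fin T → ℕ → ℤ), 0 ∉ K ∧ K.card ≤ L ∧
    algebraMap ℚ[X] (RatFunc ℚ) F = ∑ i, RatFunc.C (c i) * (RatFunc.X ^ (e i) *
      ∏ k ∈ K, ((1 + RatFunc.X ^ k) ^ (a i k) * (1 - RatFunc.X ^ k) ^ (b i k)))

/-- 1. For all `T` and `L`, if `p` is large then `W` of the identity on `p` points has no form with `T`
terms and at most `L` indices. 2. For no `T` and no function `L` does `W α`, for all `p` and all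
permutations `α` of `p` points, have a form with `T` terms and at most `L (order of α)` indices. -/
theorem result :
    (∀ T L : ℕ, ∃ P : ℕ, ∀ p, P ≤ p → ¬ HasForm (W (1 : Equiv.Perm (Fin p))) T L) ∧
    (∀ (T : ℕ) (L : ℕ → ℕ),
      ¬ ∀ (p : ℕ) (α : Equiv.Perm (Fin p)), HasForm (W α) T (L (orderOf α))) := by
  have h : ∀ T L : ℕ, ∃ P : ℕ, ∀ p, P ≤ p → ¬ HasForm (W (1 : Equiv.Perm (Fin p))) T L :=
    Pool.Agent.H22R3.EG.no_form
  refine ⟨h, fun T L hall => ?_⟩
  obtain ⟨P, hP⟩ := h T (L 1)
  have h1 := hall P 1
  rw [orderOf_one] at h1
  exact hP P le_rfl h1

end Pool.Agent.Results.MP_98cfca_co.NoBoundedForm
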