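import Pool.Agent.H667R4.A4
import Pool.Agent.H667R4.A5
import Mathlib.Topology.Instances.Real.Lemmas

/-!
# MP_98cfca_co, Q1: no closed form for `W_j(x)` at the identity type

For a permutation `α` of `Fin p`, `W α x` is the sum of `x ^ |E(G)|` over all even graphs `G` on
`Fin p` with `α(G) = G`.  For `α = 1` (cycle type `j = (p, 0, 0, …)`) the function `W α` is not a
linear combination of `B` products of factors `(1 + x ^ k) ^ a` and `(1 - x ^ k) ^ b`
(`k` in a finite set `K`, integer exponents, real coefficients), once `p` exceeds an explicit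
bound, which depends only on `B` and on the number of elements of `K`, and which is also
bounded by a fixed power of `∑ k ∈ K, k` for fixed `B`.
-/

namespace Pool.Agent.Results.MP_98cfca_co.NoClosedForm

open Polynomial H667R4

theorem zpow_shift {y : ℝ} (hy : y ≠ 0) {n : ℕ} {a : ℤ} (h : 0 ≤ (n : ℤ) + a) :
    y ^ n * y ^ a = y ^ ((n : ℤ) + a).toNat := by
  rw [← zpow_natCast y n, ← zpow_add₀ hy, ← zpow_natCast y ((n : ℤ) + a).toNat,
    Int.toNat_of_nonneg h]

theorem result (B p : ℕ) (K : Finset ℕ) (hK : ∀ k ∈ K, 1 ≤ k)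
    (hp : (8 * min ((K.card + 1) * 2 ^ (K.card + 1)) (2 * ∑ k ∈ K, k + 3)) ^ 4 ^ B
      + 2 * B + 1 < p)
    (c : Fin B → ℝ) (a b : Fin B → ℕ → ℤ) :
    ¬ ∀ x ∈ Set.Ioo (0 : ℝ) 1, W (1 : Equiv.Perm (Fin p)) x =
      ∑ t, c t * ∏ k ∈ K, (1 + x ^ k) ^ a t k * (1 - x ^ k) ^ b t k := by
  intro h
  obtain ⟨N, hNdef⟩ : ∃ N, N = min ((K.card + 1) * 2 ^ (K.card + 1)) (2 * ∑ k ∈ K, k + 3) :=
    ⟨_, rfl⟩
  rw [← hNdef] at hp
  have hN : (K.card + 1) * 2 ^ (K.card + 1) ≤ N ∨ 2 * ∑ k ∈ K, k + 3 ≤ N := by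
    rw [hNdef]
    rcases min_choice ((K.card + 1) * 2 ^ (K.card + 1)) (2 * ∑ k ∈ K, k + 3) with h1 | h1
    · exact Or.inl (le_of_eq h1.symm)
    · exact Or.inr (le_of_eq h1.symm)
  clear hNdef
  have hN1 : 1 ≤ N := by
    rcases hN with h1 | h1
    · have : 1 ≤ (K.card + 1) * 2 ^ (K.card + 1) := Nat.mul_pos (by omega) (by positivity)
      omega
    · omega
  have hN' : (1 ≤ K.card + 1 ∧ (K.card + 1) * 2 ^ (K.card + 1) ≤ N) ∨
      2 * ∑ k ∈ K, k + 2 * 1 + 1 ≤ N := by
    rcases hN with h1 | h1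
    · exact Or.inl ⟨by omega, h1⟩
    · exact Or.inr (by omega)
  set e : ℕ := ∑ t, ∑ k ∈ K, ((a t k).natAbs + (b t k).natAbs) with he
  have hbound : ∀ t, ∀ k ∈ K, (a t k).natAbs + (b t k).natAbs ≤ e := by
    intro t k hk
    rw [he]
    refine le_trans ?_ (Finset.single_le_sum (f := fun t => ∑ k ∈ K,
      ((a t k).natAbs + (b t k).natAbs)) (fun _ _ => Nat.zero_le _) (Finset.mem_univ t))
    exact Finset.single_le_sum (f := fun k => (a t k).natAbs + (b t k).natAbs)
      (fun _ _ => Nat.zero_le _) hk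
  set M0 : ℝ[X] := ∏ k ∈ K, (1 + X ^ k) ^ e * (1 - X ^ k) ^ e with hM0
  set T : Fin B → ℝ[X] := fun t => ∏ k ∈ K, (1 + X ^ k) ^ ((e : ℤ) + a t k).toNat *
    (1 - X ^ k) ^ ((e : ℤ) + b t k).toNat with hT
  have hM : M0 ≠ 0 := by
    rw [hM0, Finset.prod_ne_zero_iff]
    intro k hk
    exact mul_ne_zero (pow_ne_zero _ (one_add_X_pow_ne k))
      (pow_ne_zero _ (one_sub_X_pow_ne (hK k hk)))
  have hTt : ∀ t, IsType N (T t) := by
    intro t
    have h1 := (HasLD.prod K hK (fun k => ((e : ℤ) + a t k).toNat)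
      (fun k => ((e : ℤ) + b t k).toNat)).mul (le_refl 1) 0 0
    have h2 := h1.isType hN'
    simpa [hT] using h2
  have hUt : ∀ s, IsType N (Us M0 (pairs p).card s) := by
    intro s
    have h1 := (HasLD.prod K hK (fun _ => e) (fun _ => e)).mul (le_refl 1)
      ((pairs p).card - s) s
    have h2 := h1.isType hN'
    rw [pow_one, ← hM0] at h2
    exact h2
  have hw : ∀ i ≤ p, 0 < (1 / 2 : ℝ) ^ p * (p.choose i : ℝ) := by
    intro i hi
    have : 0 < p.choose i := Nat.choose_pos hi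
    positivity
  have hpoly : ∑ i ∈ Finset.range (p + 1), C ((1 / 2 : ℝ) ^ p * (p.choose i : ℝ)) *
      Us M0 (pairs p).card (sv p i) = ∑ t, C (c t) * T t := by
    apply Polynomial.eq_of_infinite_eval_eq
    refine Set.Infinite.mono ?_ (Set.Ioo_infinite (show (0 : ℝ) < 1 by norm_num))
    intro x hx
    have hx' := h x hx
    rw [Set.mem_ofPred_eq, eval_finsetSum, eval_finsetSum]
    have h1 : ∀ i ∈ Finset.range (p + 1),
        (C ((1 / 2 : ℝ) ^ p * (p.choose i : ℝ)) * Us M0 (pairs p).card (sv p i)).eval x =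
        M0.eval x * (((1 / 2 : ℝ) ^ p * (p.choose i : ℝ)) *
          ((1 + x) ^ ((pairs p).card - i * (p - i)) * (1 - x) ^ (i * (p - i)))) := by
      intro i _
      simp only [Us, sv, eval_mul, eval_C, eval_pow, eval_add, eval_sub, eval_one, eval_X]
      ring
    rw [Finset.sum_congr rfl h1, ← Finset.mul_sum, ← W_one_formula, hx', Finset.mul_sum]
    apply Finset.sum_congr rfl
    intro t _
    rw [eval_mul, eval_C, mul_left_comm]
    congr 1
    rw [hM0, hT, eval_prod, eval_prod, ← Finset.prod_mul_distrib]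
    apply Finset.prod_congr rfl
    intro k hk
    have hk1 := hK k hk
    have hxk0 : 0 < x ^ k := pow_pos hx.1 k
    have hxk1 : x ^ k < 1 := pow_lt_one₀ hx.1.le hx.2 (by omega)
    have hb := hbound t k hk
    have e1 := zpow_shift (y := 1 + x ^ k) (by positivity) (n := e) (a := a t k) (by omega)
    have e2 := zpow_shift (y := 1 - x ^ k) (by linarith) (n := e) (a := b t k) (by omega)
    simp only [eval_mul, eval_pow, eval_add, eval_sub, eval_one, eval_X]
    rw [← e1, ← e2]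
    ring
  have hE := E_le B N hN1
  exact assembly (p := p) hN1 (by omega) T hTt M0 hM (pairs p).card hUt
    (fun i => (1 / 2 : ℝ) ^ p * (p.choose i : ℝ)) hw ⟨c, hpoly⟩

end Pool.Agent.Results.MP_98cfca_co.NoClosedForm
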